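import Pool.Agent.Y5.V.Stm
import Pool.Agent.Y809.EK.CJ1

/-! Fields with the symmetries of the cube on the undamped spheres. -/

open Set Filter Topology
open scoped ComplexConjugate

set_option autoImplicit false

namespace Pool.Agent.Y390.VL.LEV

open Pool.Agent.Y6.M (Z3 C3 Coef dt kc nsq len IsField)
open Pool.Agent.Y5.D (OT Rap vec pair)
open Pool.Agent.Y5.V (Sy wOf xc lac S_LEV)
open Pool.Agent.Y6.K (Em ivec κb nrm)
open Pool.Agent.Y302.Trunc (Lev am sg rho rb L f co toK sql mem_Lev_iff sg_pos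
  exists_of_mem_Lev am_smul lt_of_mem_L)
open Pool.Agent.Y809.EK (inner_ivec vec_eq norm_vec rho_eq nrm_pos Em_mem Em_not pair_Em)

/-! ### Parity -/

lemma neg_V {V : Coef} (hS : Sy V) (k : Z3) (j : Fin 3) : V (-k) j = -V k j := by
  have h := hS.sign (fun _ => -1) (fun _ => Or.inr rfl) k j
  have h1 : (fun j => (-1 : ℤ) * k j) = -k := by
    funext j
    rw [Pi.neg_apply]
    ring
  simp only [h1] at h
  rw [h]
  push_cast
  ring

lemma re_V {V : Coef} (hV : IsField V) (hS : Sy V) (k : Z3) (j : Fin 3) : (V k j).re = 0 := by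
  have h := hV.real k j
  rw [neg_V hS] at h
  have h1 := congrArg Complex.re h
  rw [Complex.neg_re, Complex.conj_re] at h1
  linarith

lemma wOf_apply (V : Coef) (k : Z3) (j : Fin 3) : wOf V k j = -(V k j).im := by
  change (Complex.I * V k j).re = _
  simp

lemma V_eq {V : Coef} (hV : IsField V) (hS : Sy V) (k : Z3) (j : Fin 3) :
    V k j = -Complex.I * ((wOf V k j : ℝ) : ℂ) := by
  rw [wOf_apply]
  apply Complex.ext
  · rw [re_V hV hS]
    simp
  · simp

lemma norm_V {V : Coef} (hV : IsField V) (hS : Sy V) (k : Z3) (j : Fin 3) :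
    ‖V k j‖ = |wOf V k j| := by
  rw [V_eq hV hS k j, norm_mul, norm_neg, Complex.norm_I, one_mul, Complex.norm_real,
    Real.norm_eq_abs]

lemma norm_wOf {V : Coef} (hV : IsField V) (hS : Sy V) (k : Z3) : ‖wOf V k‖ ^ 2 = Pool.Agent.Y5.V.sq (V k) := by
  rw [EuclideanSpace.norm_sq_eq]
  unfold Pool.Agent.Y5.V.sq
  refine Finset.sum_congr rfl fun j _ => ?_
  rw [norm_V hV hS, Real.norm_eq_abs]

lemma len_eq (k : Z3) : ‖vec k‖ = len k := by
  have h := norm_vec k
  unfold len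
  have h1 : ((nsq k : ℤ) : ℝ) = ‖vec k‖ ^ 2 := by
    rw [h]
    rfl
  rw [h1, Real.sqrt_sq (norm_nonneg _)]

lemma tan_w {V : Coef} (hV : IsField V) (hS : Sy V) (k : Z3) :
    ∑ j, (k j : ℝ) * wOf V k j = 0 := by
  have h := hV.div k
  unfold dt kc at h
  have h1 : ∑ j, (k j : ℂ) * V k j =
      -Complex.I * (((∑ j, (k j : ℝ) * wOf V k j : ℝ)) : ℂ) := by
    push_cast
    rw [Finset.mul_sum]
    refine Finset.sum_congr rfl fun j _ => ?_
    rw [V_eq hV hS k j]
    ring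
  rw [h1] at h
  rcases mul_eq_zero.1 h with h2 | h2
  · exfalso
    exact (neg_ne_zero.2 Complex.I_ne_zero) h2
  · exact_mod_cast h2

lemma OT_w {V : Coef} (hV : IsField V) (hS : Sy V) : OT (wOf V) where
  odd := by
    intro k
    ext j
    rw [PiLp.neg_apply, wOf_apply, wOf_apply, neg_V hS, Complex.neg_im]
  tan := by
    intro k
    rw [PiLp.inner_apply, ← tan_w hV hS k]
    refine Finset.sum_congr rfl fun j _ => ?_
    simp only [vec, RCLike.inner_apply, conj_trivial]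
    ring

lemma Rap_w {V : Coef} (hV : IsField V) (hS : Sy V) : Rap (wOf V) := by
  intro m
  obtain ⟨M, hM⟩ := hV.smooth m
  refine ⟨3 * M, fun k => ?_⟩
  have h1 : ‖wOf V k‖ ≤ ∑ j, ‖V k j‖ := by
    have h2 : ‖wOf V k‖ ^ 2 ≤ (∑ j, ‖V k j‖) ^ 2 := by
      rw [norm_wOf hV hS]
      exact Finset.sum_sq_le_sq_sum_of_nonneg (f := fun j => ‖V k j‖) fun j _ => norm_nonneg _
    exact le_of_sq_le_sq h2 (Finset.sum_nonneg fun j _ => norm_nonneg _)
  have h3 : 0 ≤ len k ^ m := pow_nonneg (Real.sqrt_nonneg _) _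
  rw [len_eq]
  calc len k ^ m * ‖wOf V k‖ ≤ len k ^ m * ∑ j, ‖V k j‖ := mul_le_mul_of_nonneg_left h1 h3
    _ = ∑ j, len k ^ m * ‖V k j‖ := Finset.mul_sum _ _ _
    _ ≤ ∑ _j : Fin 3, M := Finset.sum_le_sum fun j _ => hM k j
    _ = 3 * M := by simp

/-! ### Symmetries -/

lemma perm_w {V : Coef} (hS : Sy V) (σ : Equiv.Perm (Fin 3)) (k : Z3) (i : Fin 3) :
    wOf V (fun j => k (σ j)) i = wOf V k (σ i) := by
  rw [wOf_apply, wOf_apply, hS.perm]

lemma sign_w {V : Coef} (hS : Sy V) (ε : Fin 3 → ℤ) (hε : ∀ j, ε j = 1 ∨ ε j = -1) (k : Z3)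
    (i : Fin 3) : wOf V (fun j => ε j * k j) i = (ε i : ℝ) * wOf V k i := by
  rw [wOf_apply, wOf_apply, hS.sign ε hε]
  have h : ((ε i : ℤ) : ℂ) = (((ε i : ℤ) : ℝ) : ℂ) := by push_cast; rfl
  rw [h, Complex.im_ofReal_mul]
  ring

/-- signs -/
def sgn (b : Bool) : ℤ := if b then 1 else -1

lemma sgn_cases (b : Bool) : sgn b = 1 ∨ sgn b = -1 := by
  cases b
  · exact Or.inr rfl
  · exact Or.inl rfl

lemma orb_check : ∀ i < 4, (L i).all (fun v => decide (∃ σ : Equiv.Perm (Fin 3),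
    ∃ b : Fin 3 → Bool, ∀ p : Fin 3, co p v = sgn (b p) * co (σ p) (κb i) ∧
      f i (co p v) = sgn (b p) * f i (co (σ p) (κb i)))) = true := by
  decide +kernel

lemma orb {i : ℕ} {v : ℤ × ℤ × ℤ} (h : v ∈ L i) : ∃ σ : Equiv.Perm (Fin 3),
    ∃ b : Fin 3 → Bool, ∀ p : Fin 3, co p v = sgn (b p) * co (σ p) (κb i) ∧
      f i (co p v) = sgn (b p) * f i (co (σ p) (κb i)) := by
  have h1 := List.all_eq_true.1 (orb_check i (lt_of_mem_L h)) v h
  exact of_decide_eq_true h1

lemma w_smul {V : Coef} (hS : Sy V) {i : ℕ} (s : ℤ) {v : ℤ × ℤ × ℤ} (σ : Equiv.Perm (Fin 3))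
    (b : Fin 3 → Bool) (h : ∀ p : Fin 3, co p v = sgn (b p) * co (σ p) (κb i)) (p : Fin 3) :
    wOf V (s • toK v) p = (sgn (b p) : ℝ) * wOf V (s • toK (κb i)) (σ p) := by
  have h1 : s • toK v = fun j => sgn (b j) * (fun j' => (s • toK (κb i)) (σ j')) j := by
    funext j
    have h2 : (s • toK v) j = s * co j v := rfl
    have h3 : (s • toK (κb i)) (σ j) = s * co (σ j) (κb i) := rfl
    simp only [h2, h3, h j]
    ring
  rw [h1, sign_w hS _ (fun j => sgn_cases _), perm_w hS]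

/-- invariance of the base vector under the transposition of the last two coordinates -/
lemma swap_w {V : Coef} (hS : Sy V) (k : Z3) (h : k 1 = k 2) : wOf V k 1 = wOf V k 2 := by
  have h1 := perm_w hS (Equiv.swap 1 2) k 1
  have h2 : (fun j => k (Equiv.swap 1 2 j)) = k := by
    funext j
    fin_cases j
    · rfl
    · exact h.symm
    · exact h
  rw [h2, Equiv.swap_apply_left] at h1
  exact h1

/-- a vanishing coordinate -/
lemma zero_w {V : Coef} (hS : Sy V) (k : Z3) (h : k 0 = 0) : wOf V k 0 = 0 := by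
  have h1 := sign_w hS ![-1, 1, 1] (fun j => by fin_cases j <;> simp) k 0
  have h2 : (fun j => (![-1, 1, 1] : Fin 3 → ℤ) j * k j) = k := by
    funext j
    fin_cases j
    · simp [h]
    · simp
    · simp
  rw [h2] at h1
  norm_num at h1
  linarith

/-- the base vectors -/
lemma base_w {V : Coef} (hV : IsField V) (hS : Sy V) {s : ℤ} (hs : 0 < s) {i : ℕ} (hi : i < 4) :
    ∃ c : ℝ, ∀ q : Fin 3, wOf V (s • toK (κb i)) q = c * (f i (co q (κb i)) : ℝ) := by
  have ht := tan_w hV hS (s • toK (κb i))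
  have hs' : (0 : ℝ) < (s : ℝ) := by exact_mod_cast hs
  have hc : ∀ q : Fin 3, (s • toK (κb i)) q = s * co q (κb i) := fun q => rfl
  rw [Fin.sum_univ_three, hc, hc, hc] at ht
  have hq : ∀ q : Fin 3, q = 0 ∨ q = 1 ∨ q = 2 := by decide
  interval_cases i
  · have e0 : co ((0 : Fin 3) : ℕ) (κb 0) = 3 := rfl
    have e1 : co ((1 : Fin 3) : ℕ) (κb 0) = 1 := rfl
    have e2 : co ((2 : Fin 3) : ℕ) (κb 0) = 1 := rfl
    have g0 : f 0 3 = -2 := by decide
    have g1 : f 0 1 = 3 := by decide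
    have g2 : f 0 1 = 3 := by decide
    have h1 := swap_w hS (s • toK (κb 0)) rfl
    rw [e0, e1, e2] at ht
    push_cast at ht
    refine ⟨wOf V (s • toK (κb 0)) 1 / 3, fun q => ?_⟩
    have h2 : (s : ℝ) * (3 * wOf V (s • toK (κb 0)) 0 + 1 * wOf V (s • toK (κb 0)) 1 +
        1 * wOf V (s • toK (κb 0)) 2) = 0 := by linarith
    have h3 := (mul_eq_zero.1 h2).resolve_left hs'.ne'
    rcases hq q with rfl | rfl | rfl
    · rw [e0, g0]
      push_cast
      linarith
    · rw [e1, g1]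
      push_cast
      linarith
    · rw [e2, g2]
      push_cast
      linarith
  · have e0 : co ((0 : Fin 3) : ℕ) (κb 1) = 0 := rfl
    have e1 : co ((1 : Fin 3) : ℕ) (κb 1) = 2 := rfl
    have e2 : co ((2 : Fin 3) : ℕ) (κb 1) = 6 := rfl
    have g0 : f 1 0 = 0 := by decide
    have g1 : f 1 2 = 3 := by decide
    have g2 : f 1 6 = -1 := by decide
    have h1 := zero_w hS (s • toK (κb 1)) (by rw [hc, e0, mul_zero])
    rw [e0, e1, e2] at ht
    push_cast at ht
    refine ⟨wOf V (s • toK (κb 1)) 1 / 3, fun q => ?_⟩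
    have h2 : (s : ℝ) * (0 * wOf V (s • toK (κb 1)) 0 + 2 * wOf V (s • toK (κb 1)) 1 +
        6 * wOf V (s • toK (κb 1)) 2) = 0 := by linarith
    have h3 := (mul_eq_zero.1 h2).resolve_left hs'.ne'
    rcases hq q with rfl | rfl | rfl
    · rw [e0, g0]
      push_cast
      linarith
    · rw [e1, g1]
      push_cast
      linarith
    · rw [e2, g2]
      push_cast
      linarith
  · have e0 : co ((0 : Fin 3) : ℕ) (κb 2) = 4 := rfl
    have e1 : co ((1 : Fin 3) : ℕ) (κb 2) = 6 := rfl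
    have e2 : co ((2 : Fin 3) : ℕ) (κb 2) = 6 := rfl
    have g0 : f 2 4 = -3 := by decide
    have g1 : f 2 6 = 1 := by decide
    have g2 : f 2 6 = 1 := by decide
    have h1 := swap_w hS (s • toK (κb 2)) rfl
    rw [e0, e1, e2] at ht
    push_cast at ht
    refine ⟨wOf V (s • toK (κb 2)) 1 , fun q => ?_⟩
    have h2 : (s : ℝ) * (4 * wOf V (s • toK (κb 2)) 0 + 6 * wOf V (s • toK (κb 2)) 1 +
        6 * wOf V (s • toK (κb 2)) 2) = 0 := by linarith
    have h3 := (mul_eq_zero.1 h2).resolve_left hs'.ne'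
    rcases hq q with rfl | rfl | rfl
    · rw [e0, g0]
      push_cast
      linarith
    · rw [e1, g1]
      push_cast
      linarith
    · rw [e2, g2]
      push_cast
      linarith
  · have e0 : co ((0 : Fin 3) : ℕ) (κb 3) = 0 := rfl
    have e1 : co ((1 : Fin 3) : ℕ) (κb 3) = 8 := rfl
    have e2 : co ((2 : Fin 3) : ℕ) (κb 3) = 12 := rfl
    have g0 : f 3 0 = 0 := by decide
    have g1 : f 3 8 = -3 := by decide
    have g2 : f 3 12 = 2 := by decide
    have h1 := zero_w hS (s • toK (κb 3)) (by rw [hc, e0, mul_zero])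
    rw [e0, e1, e2] at ht
    push_cast at ht
    refine ⟨wOf V (s • toK (κb 3)) 1 / (-3), fun q => ?_⟩
    have h2 : (s : ℝ) * (0 * wOf V (s • toK (κb 3)) 0 + 8 * wOf V (s • toK (κb 3)) 1 +
        12 * wOf V (s • toK (κb 3)) 2) = 0 := by linarith
    have h3 := (mul_eq_zero.1 h2).resolve_left hs'.ne'
    rcases hq q with rfl | rfl | rfl
    · rw [e0, g0]
      push_cast
      linarith
    · rw [e1, g1]
      push_cast
      linarith
    · rw [e2, g2]
      push_cast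
      linarith

/-- the amplitudes on a level -/
lemma lev_w {V : Coef} (hV : IsField V) (hS : Sy V) (n : ℕ) :
    ∃ c : ℝ, ∀ k ∈ Lev 1 n, wOf V k = c • ivec (am 1 n k) := by
  obtain ⟨c, hc⟩ := base_w hV hS (sg_pos one_pos n) (Nat.mod_lt n (by norm_num : 0 < 4))
  refine ⟨c, fun k hk => ?_⟩
  obtain ⟨v, hv, rfl⟩ := exists_of_mem_Lev hk
  obtain ⟨σ, b, h⟩ := orb hv
  ext p
  rw [w_smul hS _ σ b (fun p => (h p).1), hc, PiLp.smul_apply]
  change _ = c * ((am 1 n (sg 1 n • toK v) p : ℤ) : ℝ)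
  rw [am_smul one_pos, (h p).2]
  push_cast
  ring

lemma lev_xc {V : Coef} (hV : IsField V) (hS : Sy V) (n : ℕ) :
    ∀ k ∈ Lev 1 n, wOf V k = xc V n • Em n k := by
  obtain ⟨c, hc⟩ := lev_w hV hS n
  have hN : √(nrm (n % 4)) ≠ 0 := (Real.sqrt_pos.2 (nrm_pos _)).ne'
  have h1 : ∀ k ∈ Lev 1 n, wOf V k = (c * √(nrm (n % 4))) • Em n k := by
    intro k hk
    rw [hc k hk, Em_mem hk, smul_smul, mul_assoc, mul_inv_cancel₀ hN, mul_one]
  have h2 : xc V n = c * √(nrm (n % 4)) := by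
    have h3 : ∀ k, inner ℝ (wOf V k) (Em n k) =
        (c * √(nrm (n % 4))) * inner ℝ (Em n k) (Em n k) := by
      intro k
      by_cases hk : k ∈ Lev 1 n
      · rw [h1 k hk, inner_smul_left]
        rfl
      · rw [Em_not hk, inner_zero_right, inner_zero_right, mul_zero]
    have h4 := pair_Em n
    unfold pair at h4
    unfold xc pair
    rw [tsum_congr h3, tsum_mul_left, h4, mul_one]
  rw [h2]
  exact h1

/-! ### The eigenvalues -/

lemma mem_lev' (n : ℕ) (k : Z3) : k ∈ Lev 1 n ↔ nsq k = 64 ^ (n / 4) * rb (n % 4) := by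
  have h := @mem_Lev_iff 0 n k
  rw [pow_zero, rho_eq] at h
  exact h

lemma lac_iff (k : Z3) : lac (nsq k) ↔ ∃ n, k ∈ Lev 1 n := by
  constructor
  · rintro ⟨j, h⟩
    have key : ∀ i < 4, nsq k = rb i * 64 ^ j → ∃ n, k ∈ Lev 1 n := by
      intro i hi hk
      refine ⟨4 * j + i, (mem_lev' _ _).2 ?_⟩
      have h1 : (4 * j + i) / 4 = j := by omega
      have h2 : (4 * j + i) % 4 = i := by omega
      rw [h1, h2, hk, mul_comm]
    rcases h with h | h | h | h
    · exact key 0 (by norm_num) h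
    · exact key 1 (by norm_num) h
    · exact key 2 (by norm_num) h
    · exact key 3 (by norm_num) h
  · rintro ⟨n, h⟩
    rw [mem_lev'] at h
    refine ⟨n / 4, ?_⟩
    have h1 : n % 4 = 0 ∨ n % 4 = 1 ∨ n % 4 = 2 ∨ n % 4 = 3 := by omega
    rcases h1 with h1 | h1 | h1 | h1
    · rw [h1] at h
      exact Or.inl (by rw [h, mul_comm]; rfl)
    · rw [h1] at h
      exact Or.inr (Or.inl (by rw [h, mul_comm]; rfl))
    · rw [h1] at h
      exact Or.inr (Or.inr (Or.inl (by rw [h, mul_comm]; rfl)))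
    · rw [h1] at h
      exact Or.inr (Or.inr (Or.inr (by rw [h, mul_comm]; rfl)))

/-- Symmetric fields on the undamped spheres. -/
theorem t_LEV : S_LEV := fun _V hV hS =>
  ⟨OT_w hV hS, Rap_w hV hS, V_eq hV hS, norm_wOf hV hS, lev_xc hV hS, lac_iff⟩

end Pool.Agent.Y390.VL.LEV
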